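import Mathlib

namespace Pool.Agent.Results.MP_ba12ad_co.Z11

/-- No loop, no directed 2-cycle and no directed triangle. -/
def ShortFree {V : Type} (A : V → V → Prop) : Prop :=
  (∀ u, ¬ A u u) ∧ (∀ u v, ¬ (A u v ∧ A v u)) ∧ ∀ u v w, ¬ (A u v ∧ A v w ∧ A w u)

/-- Adding any missing arc creates a directed cycle of length at most 3. -/
def Maximal {V : Type} (A : V → V → Prop) : Prop :=
  ∀ u v, u ≠ v → ¬ A u v → ¬ ShortFree fun x y => A x y ∨ (x = u ∧ y = v)

/-- Homogeneous set. -/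
def Homogeneous {n : ℕ} (A : Fin n → Fin n → Prop) (X : Finset (Fin n)) : Prop :=
  2 ≤ X.card ∧ X.card < n ∧ ∀ w, w ∉ X →
    (∀ x ∈ X, A w x) ∨ (∀ x ∈ X, A x w) ∨ ∀ x ∈ X, ¬ A w x ∧ ¬ A x w

/-- The circular interval digraph on `ZMod (3k+1)`. -/
def Circ (k : ℕ) (i j : ZMod (3 * k + 1)) : Prop := ∃ t : ℕ, 1 ≤ t ∧ t ≤ k ∧ j = i + t

def D (u v : Fin 11) : Prop := v = u + 1 ∨ v = u + 2 ∨ v = u + 4

instance : DecidableRel D := fun u v => by unfold D; infer_instance

def sepB (w x y : Fin 11) : Bool :=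
  !((decide (D w x) && decide (D w y)) || (decide (D x w) && decide (D y w)) ||
    (!decide (D w x) && !decide (D x w) && !decide (D w y) && !decide (D y w)))

def step (L : List (Fin 11)) : List (Fin 11) :=
  (List.finRange 11).filter fun w => L.contains w || L.any fun x => L.any fun y => sepB w x y

lemma step_sub (X : Finset (Fin 11))
    (hX : ∀ w, w ∉ X → (∀ x ∈ X, D w x) ∨ (∀ x ∈ X, D x w) ∨ ∀ x ∈ X, ¬ D w x ∧ ¬ D x w)
    (L : List (Fin 11)) (hL : ∀ x ∈ L, x ∈ X) : ∀ x ∈ step L, x ∈ X := by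
  intro w hw
  simp only [step, List.mem_filter, Bool.or_eq_true, List.contains_iff_mem, List.any_eq_true] at hw
  rcases hw.2 with h | ⟨x, hx, y, hy, h⟩
  · exact hL w h
  · by_contra hc
    have hx' := hL x hx
    have hy' := hL y hy
    rcases hX w hc with h1 | h1 | h1
    · simp [sepB, h1 x hx', h1 y hy'] at h
    · simp [sepB, h1 x hx', h1 y hy'] at h
    · simp [sepB, h1 x hx', h1 y hy'] at h

lemma closure : ∀ a b : Fin 11, a ≠ b → ∀ w : Fin 11, w ∈ step (step (step [a, b])) := by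
  decide +kernel

theorem result : ∃ (n : ℕ) (A : Fin n → Fin n → Prop), 0 < n ∧ ShortFree A ∧ Maximal A ∧
    (∀ X, ¬ Homogeneous A X) ∧ (∀ u, 4 * n < 15 * {v | A u v}.ncard) ∧
    ¬ ∃ (k : ℕ) (e : Fin n ≃ ZMod (3 * k + 1)), ∀ u v, A u v ↔ Circ k (e u) (e v) := by
  refine ⟨11, D, by norm_num, ?_, ?_, ?_, ?_, ?_⟩
  · unfold ShortFree; decide +kernel
  · intro u v huv hn hs
    have key : ∀ u v : Fin 11, u ≠ v → ¬ D u v → D v u ∨ ∃ w, D v w ∧ D w u := by decide +kernel
    rcases key u v huv hn with h | ⟨w, h1, h2⟩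
    · exact hs.2.1 u v ⟨Or.inr ⟨rfl, rfl⟩, Or.inl h⟩
    · exact hs.2.2 u v w ⟨Or.inr ⟨rfl, rfl⟩, Or.inl h1, Or.inl h2⟩
  · rintro X ⟨h1, h2, h3⟩
    obtain ⟨a, ha, b, hb, hab⟩ := Finset.one_lt_card.mp h1
    have h0 : ∀ x ∈ [a, b], x ∈ X := by
      intro x hx
      simp only [List.mem_cons, List.not_mem_nil, or_false] at hx
      rcases hx with rfl | rfl <;> assumption
    have h4 := step_sub X h3 _ (step_sub X h3 _ (step_sub X h3 _ h0))
    have : X = Finset.univ := Finset.eq_univ_of_forall fun w => h4 w (closure a b hab w)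
    rw [this] at h2
    simp at h2
  · intro u
    have : {v | D u v} = ((Finset.univ.filter fun v => D u v : Finset (Fin 11)) : Set (Fin 11)) := by
      ext v; simp
    rw [this, Set.ncard_coe_finset]
    clear this
    revert u
    decide +kernel
  · rintro ⟨k, e, _⟩
    have := Fintype.card_congr e
    rw [ZMod.card, Fintype.card_fin] at this
    omega

end Pool.Agent.Results.MP_ba12ad_co.Z11
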